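import Mathlib

/-!
# 3SAT, its negation symmetries, and circuits (block SB of MP_71c844_lc)

Truth values of variables are elements of `ZMod 2`.
-/

set_option autoImplicit false

namespace MP_71c844_lc.SB

/-- A literal over `v` variables is a pair `(i, c)`; it is true under an assignment `a` iff
`a i = c`. -/
abbrev Lit (v : ℕ) : Type := Fin v × ZMod 2

/-- A clause is an ordered triple of literals. -/
abbrev Clause (v : ℕ) : Type := Fin 3 → Lit v

/-- A 3CNF formula: for each of the `(2 v) ^ 3` clauses the bit saying whether it is present. -/
abbrev Formula (v : ℕ) : Type := Clause v → Bool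

/-- The assignment `a` satisfies the clause `c`: it makes one of its literals true. -/
def SatBy {v : ℕ} (a : Fin v → ZMod 2) (c : Clause v) : Prop := ∃ j, a (c j).1 = (c j).2

/-- The number of clauses of a formula. -/
noncomputable def numClauses {v : ℕ} (x : Formula v) : ℕ := {c | x c = true}.ncard

/-- The number of clauses of the formula `x` satisfied by `a`. -/
noncomputable def numSat {v : ℕ} (x : Formula v) (a : Fin v → ZMod 2) : ℕ :=
  {c | x c = true ∧ SatBy a c}.ncard

/-- The formula `x` is satisfiable. -/
def Satisfiable {v : ℕ} (x : Formula v) : Prop :=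
  ∃ a : Fin v → ZMod 2, ∀ c, x c = true → SatBy a c

/-- The clause `c` with the variables `i` with `u i = 1` negated. -/
def neg {v : ℕ} (u : Fin v → ZMod 2) (c : Clause v) : Clause v :=
  fun j => ((c j).1, (c j).2 + u (c j).1)

/-- The images of the Boolean function `F` of formulas under the negations `u` in `U`. -/
def images {v : ℕ} (U : AddSubgroup (Fin v → ZMod 2)) (F : Formula v → Bool) :
    Set (Formula v → Bool) :=
  {G | ∃ u ∈ U, ∀ x, G x = F (fun c => x (neg u c))}

/-- `f 0, ..., f (s - 1)` are the functions computed by the gates of a circuit with `s` gates whose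
set of exceptional gates is `X`. A gate which is not exceptional is an input bit, or a linear
threshold function (any real weights and threshold) of any earlier gates, or any function of two
earlier gates. An exceptional gate is any function of the earlier gates that belong to `R`. -/
def IsCircuit {v s : ℕ} (X R : Finset (Fin s)) (f : Fin s → Formula v → Bool) : Prop :=
  ∀ g : Fin s,
    (g ∉ X ∧ ((∃ c : Clause v, ∀ x, f g x = x c) ∨
      (∃ (w : Fin s → ℝ) (θ : ℝ), ∀ x, f g x = true ↔
        θ ≤ ∑ h ∈ Finset.Iio g, if f h x = true then w h else 0) ∨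
      (∃ a < g, ∃ b < g, ∃ B : Bool → Bool → Bool, ∀ x, f g x = B (f a x) (f b x)))) ∨
    (g ∈ X ∧ ∃ B : (Fin s → Bool) → Bool, ∀ x,
      f g x = B (fun h => decide (h ∈ R ∧ h < g ∧ f h x = true)))

end MP_71c844_lc.SB
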