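import Pool.Agent.Work.MP_71c844_lc.SB.Defs

/-!
# Block SB of MP_71c844_lc: statements with complete proofs in the docstrings

THEOREM (final). For every `ε > 0` there is `K`: let a circuit with `s` gates (inputs, linear
threshold gates, functions of two gates, exceptional gates = any functions of the earlier gates in
`R`) accept all satisfiable 3CNFs and reject all 3CNFs in which every assignment satisfies fewer
than a `7/8 + ε` fraction of the clauses. If every gate which is not exceptional has at most `M`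
images under a group `U` of negations of variables, then `|U| ≤ (s * M ^ (|R| + 1)) ^ K`.

NOTATION. `t`, `Q` natural numbers, `ν : Fin 3 → Fin Q → Fin t`. The linear system has the `3 t`
variables `(j, i)` and the `Q` equations `y (0, ν 0 q) + y (1, ν 1 q) + y (2, ν 2 q) = b q`.
`lin ν y` is the left side, `adj ν` the transposed map. `e : Fin 3 × Fin t → Fin v` says which
variables of the formula are used, `inst e ν b` is the formula of the system (four clauses for each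
equation). The weight of `φ` is `hammingNorm φ`.
-/

set_option autoImplicit false

namespace MP_71c844_lc.SB

open Finset

/-- The left side of the system. -/
def lin {t Q : ℕ} (ν : Fin 3 → Fin Q → Fin t) (y : Fin 3 × Fin t → ZMod 2) : Fin Q → ZMod 2 :=
  fun q => ∑ j, y (j, ν j q)

/-- The transposed map. -/
def adj {t Q : ℕ} (ν : Fin 3 → Fin Q → Fin t) (φ : Fin Q → ZMod 2) : Fin 3 × Fin t → ZMod 2 :=
  fun p => ∑ q, if ν p.1 q = p.2 then φ q else 0

open Classical in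
/-- The formula of the system with right side `b`: the clause `c` is present iff for some equation
`q` its variables are those of `q` and the sum of its three signs is `b q` (such a clause forbids
one of the four assignments of the three variables which violate the equation). -/
noncomputable def inst {v t Q : ℕ} (e : Fin 3 × Fin t → Fin v) (ν : Fin 3 → Fin Q → Fin t)
    (b : Fin Q → ZMod 2) : Formula v :=
  fun c => decide (∃ q, (∀ j, (c j).1 = e (j, ν j q)) ∧ ∑ j, (c j).2 = b q)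

/-! ### Part A: instances -/

/-- [71c844 SB ADJ] EASY. Proof: both sides are the sum over `q` and `j` of
`φ q * y (j, ν j q)`: expand, exchange the sums, `Fintype.sum_prod_type`, `Finset.sum_ite_eq`. -/
def StADJ : Prop :=
  ∀ (t Q : ℕ) (ν : Fin 3 → Fin Q → Fin t) (φ : Fin Q → ZMod 2) (y : Fin 3 × Fin t → ZMod 2),
    φ ⬝ᵥ lin ν y = adj ν φ ⬝ᵥ y

/-- [71c844 SB NEG] EASY. Proof: `neg u c` has the same variables as `c`, and the sum of its signs
is `∑ j, (c j).2 + ∑ j, u (c j).1`. If the variables of `c` are `e (j, ν j q)` the second sum is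
`lin ν (u ∘ e) q`, and in `ZMod 2` we have `s + l = b q ↔ s = b q + l`. -/
def StNEG : Prop :=
  ∀ (v t Q : ℕ) (e : Fin 3 × Fin t → Fin v) (ν : Fin 3 → Fin Q → Fin t) (b : Fin Q → ZMod 2)
    (u : Fin v → ZMod 2),
    (fun c => inst e ν b (neg u c)) = inst e ν (b + lin ν (fun p => u (e p)))

/-- [71c844 SB SAT] EASY. Proof: the assignment `0`. A present clause has signs with sum `0`, so
they are not all equal to `1` (the sum of three ones is `1` in `ZMod 2`), so some sign is `0`. -/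
def StSAT : Prop :=
  ∀ (v t Q : ℕ) (e : Fin 3 × Fin t → Fin v) (ν : Fin 3 → Fin Q → Fin t),
    Satisfiable (inst e ν (0 : Fin Q → ZMod 2))

/-- [71c844 SB VAL] MEDIUM. `e` is injective and different equations have different triples of
variables. Then there are exactly `4 Q` clauses, and the number of satisfied clauses plus the
number of violated equations is `4 Q`.
Proof: let `T b` be the set of pairs `(q, σ)`, `σ : Fin 3 → ZMod 2` with `∑ j, σ j = b q`. The map
`(q, σ) ↦ (j ↦ (e (j, ν j q), σ j))` is a bijection from `T b` onto the present clauses: it is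
injective because the variables of the clause determine `ν j q` for all `j` (`e` injective), hence
`q`. For every `q` there are exactly 4 vectors `σ` with a given sum (`decide`, or: `σ 0, σ 1` free).
So `numClauses = 4 Q`. The clause of `(q, σ)` is NOT satisfied by `a` iff
`a (e (j, ν j q)) ≠ σ j`, that is `σ j = a (e (j, ν j q)) + 1`, for all three `j`; such a `σ` has
sum `lin ν (a ∘ e) q + 3 = lin ν (a ∘ e) q + 1`, so it belongs to `T b` iff
`lin ν (a ∘ e) q + 1 = b q` iff `lin ν (a ∘ e) q ≠ b q`. So the present clauses not satisfied are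
in bijection with the violated equations. -/
def StVAL : Prop :=
  ∀ (v t Q : ℕ) (e : Fin 3 × Fin t → Fin v) (ν : Fin 3 → Fin Q → Fin t) (b : Fin Q → ZMod 2)
    (a : Fin v → ZMod 2),
    Function.Injective e → Function.Injective (fun q (j : Fin 3) => ν j q) →
    numClauses (inst e ν b) = 4 * Q ∧
    numSat (inst e ν b) a + (univ.filter fun q => lin ν (fun p => a (e p)) q ≠ b q).card = 4 * Q

/-! ### Part B: groups, index, duality -/

/-- [71c844 SB INF] MEDIUM (information set of a linear code).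
Proof: `U` is a subspace of `Fin v → ZMod 2` (`AddSubgroup.toZModSubmodule`), of dimension `n`, so
`Nat.card U = 2 ^ n` (`Module.card_eq_pow_finrank`). The coordinate functionals `p_i`, `i : Fin v`,
restricted to `U` span the dual space of `U` (they have no common nonzero zero in `U`; or: the
inclusion `U → Fin v → ZMod 2` is injective so its transpose is surjective and the `p_i` are the
images of the dual basis). Choose `n` indices `e 0, ..., e (n-1)` for which they form a basis of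
the dual (`exists_linearIndependent`, or `Basis.exists...`); `e` is injective. The map
`u ↦ (u (e i))_i` from `U` to `Fin n → ZMod 2` is injective (a vector of `U` killed by a basis of
the dual is `0`), and both sides have dimension `n`, so it is surjective. (Alternative: induction
on `v`: look at the last coordinate; the subgroup `U' = {u ∈ U | u last = 0}` is `U` or has index
2.) -/
def StINF : Prop :=
  ∀ (v : ℕ) (U : AddSubgroup (Fin v → ZMod 2)),
    ∃ (n : ℕ) (e : Fin n → Fin v), Function.Injective e ∧ Nat.card U = 2 ^ n ∧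
      ∀ y : Fin n → ZMod 2, ∃ u ∈ U, ∀ i, u (e i) = y i

/-- The vectors `u ∘ e` for the negations `u ∈ U` which do not change `F`. -/
def stab {v t : ℕ} (U : AddSubgroup (Fin v → ZMod 2)) (e : Fin 3 × Fin t → Fin v)
    (F : Formula v → Bool) : AddSubgroup (Fin 3 × Fin t → ZMod 2) where
  carrier := {y | ∃ u ∈ U, (∀ p, u (e p) = y p) ∧ ∀ x, F (fun c => x (neg u c)) = F x}
  zero_mem' := ⟨0, U.zero_mem, fun p => rfl, fun x => by
    congr 1
    funext c
    congr 1
    funext j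
    simp [neg]⟩
  add_mem' := by
    rintro y y' ⟨u, hu, hy, hF⟩ ⟨u', hu', hy', hF'⟩
    refine ⟨u + u', U.add_mem hu hu', fun p => by simp [hy, hy'], fun x => ?_⟩
    have h : (fun c => x (neg (u + u') c)) = fun c => (fun c => x (neg u' c)) (neg u c) := by
      funext c
      show x _ = x _
      congr 1
      funext j
      simp [neg, add_assoc]
    rw [h]
    exact (hF (fun c => x (neg u' c))).trans (hF' x)
  neg_mem' := by
    rintro y ⟨u, hu, hy, hF⟩
    refine ⟨-u, U.neg_mem hu, fun p => by simp [hy], fun x => ?_⟩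
    have h : -u = u := by
      funext i
      exact ZMod.neg_eq_self_mod_two _
    rw [h]
    exact hF x

/-- [71c844 SB IDX] EASY-MEDIUM. If `F` has at most `M` images under `U` and every vector `y` is
`u ∘ e` for some `u ∈ U` then `stab U e F` has index at most `M`.
Proof: choose `u_y ∈ U` with `u_y ∘ e = y` for every `y : Fin 3 × Fin t → ZMod 2` and map `y` to
the image `G_y x = F (x ∘ neg u_y)` of `F`. If `G_y = G_z` then `F` is unchanged by `u_y + u_z`
(`x ∘ neg (u_y + u_z) = (x ∘ neg u_z) ∘ neg u_y`, so `F (x ∘ neg (u_y + u_z)) = G_y (x ∘ neg u_z)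
= G_z (x ∘ neg u_z) = F (x ∘ neg u_z ∘ neg u_z) = F x`), so `y + z ∈ stab U e F`. So each
fibre of `y ↦ G_y` is contained in a coset of `stab U e F`, and there are at most `M` fibres
(`images U F` is finite, being a set of functions between finite types). Hence
`2 ^ (3 t) ≤ M * |stab U e F|` (`Finset.card_le_mul_card_image`). -/
def StIDX : Prop :=
  ∀ (v t M : ℕ) (U : AddSubgroup (Fin v → ZMod 2)) (e : Fin 3 × Fin t → Fin v)
    (F : Formula v → Bool),
    (∀ y : Fin 3 × Fin t → ZMod 2, ∃ u ∈ U, ∀ p, u (e p) = y p) →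
    (images U F).ncard ≤ M →
    2 ^ (3 * t) ≤ M * Nat.card (stab U e F)

/-- [71c844 SB INX] EASY-MEDIUM. Indices multiply under intersections.
Proof: induction on `R`. For subgroups `A`, `B` of a finite group `E`:
`|E| * |A ⊓ B| ≥ |A| * |B|` (the map `A × B → E`, `(a, b) ↦ a - b` has fibres of size `|A ⊓ B|`;
or `AddSubgroup.relIndex`, `AddSubgroup.index_inf_le`: the index of an intersection is at most the
product of the indices, and `index * card = |E|`). So if `|E| ≤ M ^ k |B|` and `|E| ≤ M |A|` then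
`|E| ≤ M ^ (k + 1) |A ⊓ B|`. -/
def StINX : Prop :=
  ∀ (E : Type) [AddCommGroup E] [Finite E] (ι : Type) [DecidableEq ι] (R : Finset ι)
    (H : ι → AddSubgroup E) (M : ℕ),
    (∀ i ∈ R, Nat.card E ≤ M * Nat.card (H i)) →
    Nat.card E ≤ M ^ R.card * Nat.card (⨅ i ∈ R, H i : AddSubgroup E)

/-- [71c844 SB PRP] MEDIUM. Proof: `Y` is a subspace (`AddSubgroup.toZModSubmodule`); the
orthogonal space of a subspace of dimension `k` of an `n`-dimensional space with the standard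
(nondegenerate, symmetric) form has dimension `n - k`
(`LinearMap.BilinForm.finrank_orthogonal` or `Subspace.finrank_add_finrank_dualAnnihilator_eq`
with `dotProductEquiv`), and a space of dimension `k` over `ZMod 2` has `2 ^ k` elements. -/
def StPRP : Prop :=
  ∀ (ι : Type) [Fintype ι] [DecidableEq ι] (Y : AddSubgroup (ι → ZMod 2)),
    Nat.card Y * {w : ι → ZMod 2 | ∀ y ∈ Y, w ⬝ᵥ y = 0}.ncard = 2 ^ Fintype.card ι

/-- [71c844 SB DUA] MEDIUM (solvability of a linear system over `ZMod 2`, Fredholm alternative).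
Proof: everything is linear over `ZMod 2`. Consider the linear map
`L : Y → Dual Φ`, `y ↦ (φ ↦ φ ⬝ᵥ lin ν y)` and the functional `c : φ ↦ φ ⬝ᵥ d` on `Φ`. If `c` is
not in the range of `L` there is an element of the dual of `Dual Φ`, that is an element `φ` of `Φ`
(`Module.evalEquiv`), which vanishes on the range of `L` and not at `c`
(`Submodule.exists_dual_map_eq_bot_of_notMem` or `Submodule.exists_le_ker_of_lt_top`), so
`φ ⬝ᵥ lin ν y = 0` for all `y ∈ Y` and `φ ⬝ᵥ d ≠ 0`, a contradiction. So `L y = c` for some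
`y ∈ Y`, and `φ ⬝ᵥ (d + lin ν y) = 2 (φ ⬝ᵥ d) = 0`. (Alternative: induction on the number of
generators of `Φ`.) -/
def StDUA : Prop :=
  ∀ (t Q : ℕ) (ν : Fin 3 → Fin Q → Fin t) (Y : AddSubgroup (Fin 3 × Fin t → ZMod 2))
    (Φ : AddSubgroup (Fin Q → ZMod 2)) (d : Fin Q → ZMod 2),
    (∀ φ ∈ Φ, (∀ y ∈ Y, φ ⬝ᵥ lin ν y = 0) → φ ⬝ᵥ d = 0) →
    ∃ y ∈ Y, ∀ φ ∈ Φ, φ ⬝ᵥ (d + lin ν y) = 0

/-- [71c844 SB SUP] EASY-MEDIUM. Proof: let `S` be the set of all `q` with `φ q ≠ 0` for some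
`φ ∈ Φ`. For `q ∈ S` exactly half of the elements of `Φ` have `φ q = 1` (adding a fixed element
`φ₀ ∈ Φ` with `φ₀ q = 1` exchanges the two halves). So
`2 * ∑ φ ∈ Φ, hammingNorm φ = |S| * |Φ|`, and the left side is at most `2 * r * |Φ|`. -/
def StSUP : Prop :=
  ∀ (Q r : ℕ) (Φ : AddSubgroup (Fin Q → ZMod 2)), (∀ φ ∈ Φ, hammingNorm φ ≤ r) →
    ∃ S : Finset (Fin Q), S.card ≤ 2 * r ∧ ∀ φ ∈ Φ, ∀ q, q ∉ S → φ q = 0

/-! ### Part C: counting -/

/-- [71c844 SB PR1] MEDIUM. The number of maps `Fin m → Fin t` whose fibres have the parities `w`,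
where `a = hammingNorm w`, `m = a + 2 j`, times `j! 2 ^ j`, is at most `m! t ^ j`; and there is no
such map if `m` is not of the form `a + 2 j`.
Proof: induction on `m`, for all `w` and `j` at once. Write `N m w` for the number. The value
`i = f 0` (or the last one) leaves a map on `m - 1` points with parities `w + e_i`
(`Fin.consEquiv`, `Fin.snocEquiv`), so `N m w = ∑ i, N (m - 1) (w + e_i)`, and `w + e_i` has weight
`a - 1` for the `a` indices `i` with `w i = 1` (then `m - 1 = (a - 1) + 2 j`) and weight `a + 1`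
for the other `t - a` indices (then `m - 1 = (a + 1) + 2 (j - 1)`, no such map if `j = 0`). With
`B(m, j) = m! t ^ j / (j! 2 ^ j)`: `a B(m-1, j) + t B(m-1, j-1) =
((m-1)! t ^ j / (j! 2 ^ j)) (a + 2 j) = B(m, j)`. For `m = 0`: `N 0 w = 1` if `w = 0` (`a = j = 0`),
and `0` otherwise. For the parity: the sum of all `w i` is `m` mod 2 and is `a` mod 2, and `f` takes
at least `a` values, so `a ≤ m`. -/
def StPR1 : Prop :=
  ∀ (t m : ℕ) (w : Fin t → ZMod 2),
    (∀ j, m = hammingNorm w + 2 * j →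
      (univ.filter fun f : Fin m → Fin t => ∀ i, (∑ k, if f k = i then (1 : ZMod 2) else 0) = w i
        ).card * (j.factorial * 2 ^ j) ≤ m.factorial * t ^ j) ∧
    ((¬ ∃ j, m = hammingNorm w + 2 * j) →
      (univ.filter fun f : Fin m → Fin t => ∀ i, (∑ k, if f k = i then (1 : ZMod 2) else 0) = w i
        ).card = 0)

/-- [71c844 SB PR2] EASY-MEDIUM. Proof: from PR1 (hypothesis). If `m` is not `a + 2 j` the number
`N` is `0`. Otherwise `N ≤ m! t ^ j / (j! 2 ^ j) ≤ m ^ (m - j) t ^ j` (`m! / j! ≤ m ^ (m - j)`), so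
`N ^ 2 ≤ m ^ (2 m - 2 j) t ^ (2 j) = m ^ m * m ^ (m - 2 j) * t ^ (2 j) ≤ m ^ m t ^ m`, because
`2 j ≤ m ≤ t`. -/
def StPR2 : Prop :=
  StPR1 → ∀ (t m : ℕ) (w : Fin t → ZMod 2), m ≤ t →
    (univ.filter fun f : Fin m → Fin t => ∀ i, (∑ k, if f k = i then (1 : ZMod 2) else 0) = w i
      ).card ^ 2 ≤ (m * t) ^ m

/-- [71c844 SB CNT] MEDIUM. For fixed `φ` of weight `m ≤ t` and fixed `w`, the number `N` of all
`ν : Fin 3 → Fin Q → Fin t` with `adj ν φ = w` satisfies `N ^ 2 * t ^ (3 m) ≤ m ^ (3 m) t ^ (6 Q)`.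
Proof: the condition splits into one condition for each `j : Fin 3`:
`∀ i, ∑ q, (if ν j q = i then φ q else 0) = w (j, i)`, which only involves the restriction of
`ν j` to the support of `φ` (`m` points; transport to `Fin m` by an equivalence); the values of
`ν j` outside the support are free (`t ^ (Q - m)`). So `N = ∏ j, N_j * t ^ (Q - m)` with
`N_j ^ 2 ≤ (m t) ^ m` by PR2, and
`N ^ 2 ≤ (m t) ^ (3 m) t ^ (6 (Q - m))`, times `t ^ (3 m)` this is `m ^ (3 m) t ^ (6 Q)`. (It is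
enough to prove `≤`: the map `ν ↦` (restrictions to the support, restrictions to the complement) is
injective.) -/
def StCNT : Prop :=
  (∀ (t m : ℕ) (w : Fin t → ZMod 2), m ≤ t →
    (univ.filter fun f : Fin m → Fin t => ∀ i, (∑ k, if f k = i then (1 : ZMod 2) else 0) = w i
      ).card ^ 2 ≤ (m * t) ^ m) →
  ∀ (t Q : ℕ) (φ : Fin Q → ZMod 2) (w : Fin 3 × Fin t → ZMod 2), hammingNorm φ ≤ t →
    (univ.filter fun ν : Fin 3 → Fin Q → Fin t => adj ν φ = w).card ^ 2 *
      t ^ (3 * hammingNorm φ) ≤ hammingNorm φ ^ (3 * hammingNorm φ) * t ^ (6 * Q)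

/-- [71c844 SB BIN] EASY-MEDIUM. Proof: `choose Q m * m! ≤ Q ^ m`
(`Nat.descFactorial_le_pow`, `Nat.descFactorial_eq_factorial_mul_choose`) and `m ^ m ≤ 3 ^ m * m!`
(from `m ^ m / m! ≤ exp m`, or by induction from `(1 + 1/m) ^ m ≤ 3`), so
`choose Q m * m ^ m ≤ (3 Q) ^ m`. With `Q = κ t`:
`(choose Q m * 4 ^ m) ^ 2 * m ^ (3 m) = (choose Q m * m ^ m) ^ 2 * 16 ^ m * m ^ m
≤ (9 κ ^ 2 t ^ 2 * 16 m) ^ m = (144 κ ^ 2 m * t ^ 2) ^ m ≤ (t ^ 3) ^ m`. -/
def StBIN : Prop :=
  ∀ (κ t m : ℕ), 144 * κ ^ 2 * m ≤ t →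
    ((κ * t).choose m * 4 ^ m) ^ 2 * m ^ (3 * m) ≤ t ^ (3 * m)

/-- [71c844 SB COL] EASY-MEDIUM. Proof: if `q ↦ (j ↦ ν j q)` is not injective there is a pair
`q ≠ q'` with `ν j q = ν j q'` for all `j`. For a fixed pair the number of such `ν` times `t ^ 3`
is `t ^ (3 Q)` (`ν` is determined by its values at the points other than `q'`; the map
`(ν, z) ↦` (`ν` with the values at `q'` replaced by `z : Fin 3 → Fin t`) is injective on the `ν` of
the pair). There are at most `Q ^ 2` pairs. -/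
def StCOL : Prop :=
  ∀ (t Q : ℕ),
    (univ.filter fun ν : Fin 3 → Fin Q → Fin t =>
      ¬ Function.Injective (fun q (j : Fin 3) => ν j q)).card * t ^ 3 ≤ Q ^ 2 * t ^ (3 * Q)

/-- [71c844 SB UNI] MEDIUM (union bound). Hypotheses = conclusions of CNT, BIN, COL.
Proof: there are `t ^ (3 Q)` maps `ν`, `Q = κ t`. By COL at most
`Q ^ 2 t ^ (3 Q) / t ^ 3 = κ ^ 2 t ^ (3 Q) / t ≤ t ^ (3 Q) / 288` of them are not injective in the
sense of the statement. For `r < m ≤ 2 r` we have `144 κ ^ 2 m ≤ 288 κ ^ 2 r ≤ t`; for `φ` of weight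
`m` and `w`, CNT and BIN give, with `N` = the number of `ν` with `adj ν φ = w` and
`C = choose Q m`: `(N * C * 4 ^ m) ^ 2 * t ^ (3 m) * m ^ (3 m) ≤ m ^ (3 m) t ^ (6 Q) t ^ (3 m)`, so
`N * C * 4 ^ m ≤ t ^ (3 Q)`. There are `C` vectors `φ` of weight `m` and at most `4 ^ r` vectors
`w ∈ W`, so the number of `ν` with `adj ν φ ∈ W` for some `φ` of weight in `(r, 2 r]` is at most
`∑_{m = r+1}^{2r} 4 ^ r t ^ (3 Q) / 4 ^ m ≤ t ^ (3 Q) / 3`. Since `1/288 + 1/3 < 1` and
`t ^ (3 Q) > 0` some `ν` is left. (Work in `ℝ` or `ℚ`.) -/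
def StUNI : Prop :=
  (∀ (t Q : ℕ) (φ : Fin Q → ZMod 2) (w : Fin 3 × Fin t → ZMod 2), hammingNorm φ ≤ t →
    (univ.filter fun ν : Fin 3 → Fin Q → Fin t => adj ν φ = w).card ^ 2 *
      t ^ (3 * hammingNorm φ) ≤ hammingNorm φ ^ (3 * hammingNorm φ) * t ^ (6 * Q)) →
  StBIN → StCOL →
  ∀ (κ t r : ℕ) (W : Finset (Fin 3 × Fin t → ZMod 2)), 1 ≤ κ → 1 ≤ r → 288 * κ ^ 2 * r ≤ t →
    W.card ≤ 4 ^ r →
    ∃ ν : Fin 3 → Fin (κ * t) → Fin t, Function.Injective (fun q (j : Fin 3) => ν j q) ∧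
      ∀ φ : Fin (κ * t) → ZMod 2, hammingNorm φ ≤ 2 * r → adj ν φ ∈ W → hammingNorm φ ≤ r

/-- [71c844 SB HOE] EASY-MEDIUM (Chernoff-Hoeffding by counting). Proof: put
`X b = ∑ q, (if c q ≠ b q then -1 else 1 : ℝ) = Q - 2 #{q | c q ≠ b q}`. The condition says
`X b ≥ 2 δ Q`. With `l = 2 δ ≥ 0`: `∑ b, exp (l X b) = (exp l + exp (-l)) ^ Q`
(`Finset.prod_univ_sum` or `Fintype.piFinset`, one factor for each `q`) `= 2 ^ Q (cosh l) ^ Q
≤ 2 ^ Q exp (l ^ 2 Q / 2)` (`Real.cosh_le_exp_half_sq`). Each `b` of the set contributes at least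
`exp (2 l δ Q)`, so their number is at most `2 ^ Q exp (l ^ 2 Q / 2 - 2 l δ Q)
= 2 ^ Q exp (-2 δ ^ 2 Q)`. -/
def StHOE : Prop :=
  ∀ (Q : ℕ) (c : Fin Q → ZMod 2) (δ : ℝ), 0 ≤ δ →
    ((univ.filter fun b : Fin Q → ZMod 2 =>
      ((univ.filter fun q => c q ≠ b q).card : ℝ) ≤ (1 / 2 - δ) * Q).card : ℝ) ≤
      2 ^ Q * Real.exp (-(2 * δ ^ 2 * Q))

/-- [71c844 SB GAP] MEDIUM. Proof: apply HOE with `δ = 2 ε` to `c = lin ν y` for each of the
`2 ^ (3 t)` vectors `y`: the number of `b` which fail `(1/2 - 2 ε) Q < #{q | lin ν y q ≠ b q}` for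
some `y` is at most `2 ^ (3 t) 2 ^ Q exp (-8 ε ^ 2 Q) < 2 ^ Q`, because `Q = κ t`, `κ ε ^ 2 ≥ 1`,
`t ≥ 1` and `8 < exp 8`. Take such a `b₀` which does not fail and let `b = b₀` outside `S`, `b = 0`
on `S`. Then `#{q | lin ν y q ≠ b q} ≥ #{q | lin ν y q ≠ b₀ q} - |S| > (1/2 - 2 ε) Q - 2 r` and
`2 r ≤ 2 ε Q`: from `288 κ ^ 2 r ≤ t` we have `288 κ ^ 3 r ≤ Q`, and `κ ^ 3 ε ≥ 1 / 288` (if
`ε ≥ 1` clear; if `ε < 1` then `κ ε ≥ κ ε ^ 2 ≥ 1`). -/
def StGAP : Prop :=
  StHOE → ∀ (κ t r : ℕ) (ε : ℝ) (ν : Fin 3 → Fin (κ * t) → Fin t) (S : Finset (Fin (κ * t))),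
    0 < ε → 1 ≤ κ → 1 ≤ (κ : ℝ) * ε ^ 2 → 1 ≤ t → 288 * κ ^ 2 * r ≤ t → S.card ≤ 2 * r →
    ∃ b : Fin (κ * t) → ZMod 2, (∀ q ∈ S, b q = 0) ∧
      ∀ y : Fin 3 × Fin t → ZMod 2,
        (1 / 2 - 4 * ε) * ((κ * t : ℕ) : ℝ) < ((univ.filter fun q => lin ν y q ≠ b q).card : ℝ)

/-! ### Part D: the induction over the gates

For a group `Y` of vectors `y`, `Perp ν r Y` is the set of all `φ` of weight at most `r` with
`φ ⬝ᵥ lin ν y = 0` for all `y ∈ Y`. If no `φ` of weight in `(r, 2 r]` is orthogonal to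
`lin ν Y` (`Closed`), this set is a group. `Blind`: a function does not distinguish right sides
whose difference is orthogonal to `Perp`. -/

/-- The vectors of weight at most `r` orthogonal to `lin ν Y`. -/
def Perp {t Q : ℕ} (ν : Fin 3 → Fin Q → Fin t) (r : ℕ)
    (Y : AddSubgroup (Fin 3 × Fin t → ZMod 2)) : Set (Fin Q → ZMod 2) :=
  {φ | hammingNorm φ ≤ r ∧ ∀ y ∈ Y, φ ⬝ᵥ lin ν y = 0}

/-- A vector of weight at most `2 r` orthogonal to `lin ν Y` has weight at most `r`. -/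
def Closed {t Q : ℕ} (ν : Fin 3 → Fin Q → Fin t) (r : ℕ)
    (Y : AddSubgroup (Fin 3 × Fin t → ZMod 2)) : Prop :=
  ∀ φ : Fin Q → ZMod 2, hammingNorm φ ≤ 2 * r → (∀ y ∈ Y, φ ⬝ᵥ lin ν y = 0) → hammingNorm φ ≤ r

/-- `F` has the same value at the formulas with right sides `b` and `b'` whenever `b + b'` is
orthogonal to `Perp ν r Y`. -/
def Blind {v t Q : ℕ} (e : Fin 3 × Fin t → Fin v) (ν : Fin 3 → Fin Q → Fin t) (r : ℕ)
    (Y : AddSubgroup (Fin 3 × Fin t → ZMod 2)) (F : Formula v → Bool) : Prop :=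
  ∀ b b' : Fin Q → ZMod 2, (∀ φ ∈ Perp ν r Y, φ ⬝ᵥ (b + b') = 0) →
    F (inst e ν b) = F (inst e ν b')

/-- [71c844 SB PGR] EASY. `Perp` is a group if `Closed` holds. Proof: `0` has weight `0`. If
`φ, φ'` are in `Perp` then `φ + φ'` has weight at most `2 r` (`hammingNorm` is subadditive:
`hammingDist` triangle inequality, or supports) and is orthogonal to `lin ν Y`, so it has weight at
most `r` by `Closed`. `-φ = φ` in characteristic 2 (`funext`, `ZMod.neg_eq_self_mod_two`). -/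
def StPGR : Prop :=
  ∀ (t Q : ℕ) (ν : Fin 3 → Fin Q → Fin t) (r : ℕ) (Y : AddSubgroup (Fin 3 × Fin t → ZMod 2)),
    Closed ν r Y → ∃ Φ : AddSubgroup (Fin Q → ZMod 2), (Φ : Set (Fin Q → ZMod 2)) = Perp ν r Y

/-- [71c844 SB MV1] EASY-MEDIUM (one child). Proof: by PGR take the group `Φ` with underlying set
`Perp ν r Z` and apply DUA to `Y`, `Φ`, `d`: if `φ ∈ Φ` is orthogonal to `lin ν Y` then
`φ ∈ Perp ν r Y` (its weight is at most `r`), so `φ ⬝ᵥ d = 0`. -/
def StMV1 : Prop :=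
  StPGR → StDUA → ∀ (t Q : ℕ) (ν : Fin 3 → Fin Q → Fin t) (r : ℕ)
    (Y Z : AddSubgroup (Fin 3 × Fin t → ZMod 2)) (d : Fin Q → ZMod 2), Closed ν r Z →
    (∀ φ ∈ Perp ν r Y, φ ⬝ᵥ d = 0) →
    ∃ y ∈ Y, ∀ φ ∈ Perp ν r Z, φ ⬝ᵥ (d + lin ν y) = 0

/-- [71c844 SB MV2] EASY-MEDIUM (two children). Proof: let `Φ₁, Φ₂` be the groups of PGR for `Z₁`
and `Z₂` and apply DUA to `Y` and `Φ₁ ⊔ Φ₂`: an element `φ = φ₁ + φ₂` of `Φ₁ ⊔ Φ₂`
(`AddSubgroup.mem_sup`) has weight at most `2 r`; if it is orthogonal to `lin ν Y` then it has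
weight at most `r` by `Closed ν r Y`, so it is in `Perp ν r Y`, so `φ ⬝ᵥ d = 0`. -/
def StMV2 : Prop :=
  StPGR → StDUA → ∀ (t Q : ℕ) (ν : Fin 3 → Fin Q → Fin t) (r : ℕ)
    (Y Z₁ Z₂ : AddSubgroup (Fin 3 × Fin t → ZMod 2)) (d : Fin Q → ZMod 2),
    Closed ν r Y → Closed ν r Z₁ → Closed ν r Z₂ →
    (∀ φ ∈ Perp ν r Y, φ ⬝ᵥ d = 0) →
    ∃ y ∈ Y, (∀ φ ∈ Perp ν r Z₁, φ ⬝ᵥ (d + lin ν y) = 0) ∧
      ∀ φ ∈ Perp ν r Z₂, φ ⬝ᵥ (d + lin ν y) = 0

/-- [71c844 SB INV] EASY. Proof: `y ∈ stab U e F` gives `u ∈ U` with `u ∘ e = y` and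
`F (x ∘ neg u) = F x` for all `x`; take `x = inst e ν b` and use NEG:
`x ∘ neg u = inst e ν (b + lin ν (u ∘ e)) = inst e ν (b + lin ν y)`. -/
def StINV : Prop :=
  StNEG → ∀ (v t Q : ℕ) (U : AddSubgroup (Fin v → ZMod 2)) (e : Fin 3 × Fin t → Fin v)
    (ν : Fin 3 → Fin Q → Fin t) (F : Formula v → Bool) (y : Fin 3 × Fin t → ZMod 2)
    (b : Fin Q → ZMod 2), y ∈ stab U e F →
    F (inst e ν (b + lin ν y)) = F (inst e ν b)

/-- [71c844 SB STI] EASY-MEDIUM (input gates). Proof: let `F x = x c`. Suppose `c` is present in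
`inst e ν b`, because of the equation `q`. For `y ∈ Y ≤ stab U e F` take `u` with `u ∘ e = y`,
`x (neg u c) = x c` for all `x` (`hF`), so `neg u c = c` (take `x` = the indicator of `c`), so
`u (c j).1 = 0` for all `j`, so `y (j, ν j q) = u (e (j, ν j q)) = u (c j).1 = 0` and
`lin ν y q = 0`. So `φ = Pi.single q 1` (weight `1 ≤ r`) is in `Perp ν r Y`, hence
`(b + b') q = 0`, that is `b' q = b q`, and `c` is present in `inst e ν b'` because of `q`. By
symmetry the two bits are equal. -/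
def StSTI : Prop :=
  ∀ (v t Q : ℕ) (U : AddSubgroup (Fin v → ZMod 2)) (e : Fin 3 × Fin t → Fin v)
    (ν : Fin 3 → Fin Q → Fin t) (r : ℕ) (Y : AddSubgroup (Fin 3 × Fin t → ZMod 2))
    (F : Formula v → Bool) (c : Clause v), 1 ≤ r → Y ≤ stab U e F → (∀ x, F x = x c) →
    Blind e ν r Y F

/-- [71c844 SB STT] MEDIUM (threshold gates; the key step). `I` = the set of children.
Proof: let `b, b'` have `b + b'` orthogonal to `Perp ν r Y`. For a child `h` MV1 (with
`d = b + b'`, `Z = Z h`) gives `y_h ∈ Y` such that `b + b' + lin ν y_h` is orthogonal to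
`Perp ν r (Z h)`. For every `y ∈ Y` the right sides `b + lin ν y` and
`b' + lin ν (y_h + y)` have the sum `b + b' + lin ν y_h`, so
`f h (inst e ν (b + lin ν y)) = f h (inst e ν (b' + lin ν (y_h + y)))` since `f h` is blind. Sum
over `y ∈ Y` (the translation by `y_h` is a bijection of `Y`), multiply by `w h`, sum over `h`:
`∑_{y ∈ Y} T (b + lin ν y) = ∑_{y ∈ Y} T (b' + lin ν y)`, where
`T b = ∑ h ∈ I, if f h (inst e ν b) = true then w h else 0`. By INV (`Y ≤ stab U e F`)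
`F (inst e ν (b + lin ν y)) = F (inst e ν b)` for all `y ∈ Y`, same for `b'`. If
`F (inst e ν b) = true` and `F (inst e ν b') = false` then all `T (b + lin ν y) ≥ θ` and all
`T (b' + lin ν y) < θ`, so the two sums (over the same nonempty finite set) are different, a
contradiction; the same with `b, b'` exchanged. -/
def StSTT : Prop :=
  StINV → StNEG →
  (∀ (t Q : ℕ) (ν : Fin 3 → Fin Q → Fin t) (r : ℕ)
    (Y Z : AddSubgroup (Fin 3 × Fin t → ZMod 2)) (d : Fin Q → ZMod 2), Closed ν r Z →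
    (∀ φ ∈ Perp ν r Y, φ ⬝ᵥ d = 0) →
    ∃ y ∈ Y, ∀ φ ∈ Perp ν r Z, φ ⬝ᵥ (d + lin ν y) = 0) →
  ∀ (v t Q s : ℕ) (U : AddSubgroup (Fin v → ZMod 2)) (e : Fin 3 × Fin t → Fin v)
    (ν : Fin 3 → Fin Q → Fin t) (r : ℕ) (Y : AddSubgroup (Fin 3 × Fin t → ZMod 2))
    (F : Formula v → Bool) (I : Finset (Fin s)) (f : Fin s → Formula v → Bool)
    (Z : Fin s → AddSubgroup (Fin 3 × Fin t → ZMod 2)) (w : Fin s → ℝ) (θ : ℝ),
    Y ≤ stab U e F → (∀ h ∈ I, Closed ν r (Z h)) → (∀ h ∈ I, Blind e ν r (Z h) (f h)) →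
    (∀ x, F x = true ↔ θ ≤ ∑ h ∈ I, if f h x = true then w h else 0) →
    Blind e ν r Y F

/-- [71c844 SB STB] EASY-MEDIUM (functions of two gates). Proof: let `b, b'` have `b + b'`
orthogonal to `Perp ν r Y`. MV2 (with `d = b + b'`) gives `y ∈ Y` such that `b + b' + lin ν y` is
orthogonal to `Perp ν r Z₁` and to `Perp ν r Z₂`, so `F₁` and `F₂` have the same values at
`inst e ν b` and `inst e ν (b' + lin ν y)` (their right sides have the sum
`b + b' + lin ν y`). So `F (inst e ν b) = F (inst e ν (b' + lin ν y)) = F (inst e ν b')` by INV. -/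
def StSTB : Prop :=
  StINV → StNEG →
  (∀ (t Q : ℕ) (ν : Fin 3 → Fin Q → Fin t) (r : ℕ)
    (Y Z₁ Z₂ : AddSubgroup (Fin 3 × Fin t → ZMod 2)) (d : Fin Q → ZMod 2),
    Closed ν r Y → Closed ν r Z₁ → Closed ν r Z₂ →
    (∀ φ ∈ Perp ν r Y, φ ⬝ᵥ d = 0) →
    ∃ y ∈ Y, (∀ φ ∈ Perp ν r Z₁, φ ⬝ᵥ (d + lin ν y) = 0) ∧
      ∀ φ ∈ Perp ν r Z₂, φ ⬝ᵥ (d + lin ν y) = 0) →
  ∀ (v t Q : ℕ) (U : AddSubgroup (Fin v → ZMod 2)) (e : Fin 3 × Fin t → Fin v)
    (ν : Fin 3 → Fin Q → Fin t) (r : ℕ) (Y Z₁ Z₂ : AddSubgroup (Fin 3 × Fin t → ZMod 2))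
    (F F₁ F₂ : Formula v → Bool) (B : Bool → Bool → Bool),
    Y ≤ stab U e F → Closed ν r Y → Closed ν r Z₁ → Closed ν r Z₂ →
    Blind e ν r Z₁ F₁ → Blind e ν r Z₂ F₂ → (∀ x, F x = B (F₁ x) (F₂ x)) →
    Blind e ν r Y F

/-- [71c844 SB ONE] EASY. A circuit which solves the gap problem has at least two gates if there is
a variable. Proof: the empty formula `x = fun _ => false` is satisfiable, so `f o` is `true` at it.
The full formula `x = fun _ => true` has `8 v ^ 3` clauses, and every assignment `a` satisfies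
`7 v ^ 3 < (7/8 + ε) 8 v ^ 3` of them (the clauses not satisfied are those with
`(c j).2 = a (c j).1 + 1` for all `j`, there are `v ^ 3`, one for each choice of the variables), so
`f o` is `false` at it. If `s = 1` then `o = 0` has no earlier gate: if it is an input bit, its value at
the empty formula is `false`, a contradiction; in all other cases its value does not depend on `x`
(an empty sum; no `a < 0`; `B` of the constant function `false`), a contradiction. And `s ≥ 1`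
since `o : Fin s`. -/
def StONE : Prop :=
  ∀ (ε : ℝ) (v s : ℕ) (f : Fin s → Formula v → Bool) (o : Fin s) (X R : Finset (Fin s)),
    0 < ε → 0 < v → IsCircuit X R f →
    (∀ x, Satisfiable x → f o x = true) →
    (∀ x, (∀ a, (numSat x a : ℝ) < (7 / 8 + ε) * numClauses x) → f o x = false) →
    2 ≤ s

/-- [71c844 SB ARI] EASY-MEDIUM (arithmetic of the end). `n = dim U`, `t = n / 3`,
`r = t / (288 κ ^ 2)`, `N = s M ^ (|R| + 1) ≥ 2`. If `4 ^ r < N` or `r = 0` then
`2 ^ n ≤ N ^ K` for `K = 2000 κ ^ 2`.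
Proof: `n ≤ 3 t + 2`, `t < 288 κ ^ 2 (r + 1)`, so `n ≤ 864 κ ^ 2 (r + 1) + 2
≤ 866 κ ^ 2 (r + 1)`. If `r = 0`: `2 ^ n ≤ 2 ^ (866 κ ^ 2) ≤ N ^ (866 κ ^ 2)`. If `r ≥ 1`:
`r + 1 ≤ 2 r`, so `2 ^ n ≤ 2 ^ (2 r * 866 κ ^ 2) = (4 ^ r) ^ (866 κ ^ 2) ≤ N ^ (866 κ ^ 2)`. And
`866 ≤ 2000`. -/
def StARI : Prop :=
  ∀ (n κ N : ℕ), 1 ≤ κ → 2 ≤ N →
    (1 ≤ n / 3 / (288 * κ ^ 2) → 4 ^ (n / 3 / (288 * κ ^ 2)) < N) →
    2 ^ n ≤ N ^ (2000 * κ ^ 2)

end MP_71c844_lc.SB
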